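import Mathlib
import Pool.Agent.W71.NN.Split

set_option autoImplicit false

/-!
# Composition of linear systems: the SHGH conjecture for grouped points

General points of the complex projective plane. A multiplicity `w` imposes `w (w + 1) / 2` conditions.

* (1) Composition. Let `c` be a cluster of points whose number of conditions is between those of a point of
  multiplicity `b` and of a point of multiplicity `b + 1`, and which is non-special in the two degrees
  `b - 1` and `b`. If a system is non-special in degree `d` with one point of multiplicity `b` and also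
  with one point of multiplicity `b + 1`, then it is non-special in degree `d` with the cluster `c` instead.
* `Base k m s` is a list of cases in which `k` points with multiplicities in `[m, m + s]` are known to be
  never special, for instance `s = 1`, `k ≥ 96`. A group of points is fine if it is non-special in the two
  degrees next to its critical one, or if it is one of these cases.
* (2) The union of `r` fine groups with numbers of conditions between those of multiplicities `m` and `m + s`,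
  `Base r m s`, and of any number of simple points is never special. In particular (groups of one point)
  `n ≥ 96` points with multiplicities `m` or `m + 1` in any arrangement are never special.
* (3) Small multiplicities are free. Let `h (h + 1) ≤ 2 (M + 1)` and `25000 (h + 1) ^ 3 ≤ M (M + 1)`. The union
  of any number of fine groups with numbers of conditions between those of `M` and `M + 1`, of any number of
  points with arbitrary multiplicities `≤ h`, and of at least `M (M + 1) / 2` simple points is never special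
  if the number of conditions is at least that of `96` points of multiplicity `M + 1`. The number of simple
  points is arbitrary if `3 h (h + 1) ≤ 2 (M + 1)` and if the number of conditions of the points with arbitrary
  multiplicities is at least `(M + 1) ^ 3`.
* (4) Let `h (h + 1) ≤ 2 s (M + 1)`, `25000 (h + 1) ^ 3 ≤ M (M + 1)`. The union of fine groups whose levels
  are `≤ M` and take at most `r` values, of points with arbitrary multiplicities `≤ h` with sum at least
  `25000 (h + 1) ^ 2` (or no such points), and of any number of simple points is never special if the number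
  of conditions (without the simple points) is at least `500000 (2 r + s + 2) (M + 1) ^ 2`.
-/

namespace Pool.Agent.Results.MP_70e04f_ag.Composition

open MvPolynomial

/-- Forms of degree `d` vanishing to order at least `w i` at the points `(P i 0 : P i 1 : 1)`. -/
noncomputable def forms {n : ℕ} (P : Fin n → Fin 2 → ℂ) (d : ℕ) (w : Fin n → ℕ) :
    Submodule ℂ (MvPolynomial (Fin 3) ℂ) :=
  homogeneousSubmodule (Fin 3) ℂ d ⊓
    Submodule.restrictScalars ℂ
      (⨅ i : Fin n, (Ideal.span {X 0 - C (P i 0) * X 2, X 1 - C (P i 1) * X 2} :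
        Ideal (MvPolynomial (Fin 3) ℂ)) ^ (w i))

/-- `h⁰(d H - ∑ w i E i) = max (0, χ(d H - ∑ w i E i))` on the blow-up of the plane at the points
`P`. -/
def Expected {n : ℕ} (P : Fin n → Fin 2 → ℂ) (d : ℕ) (w : Fin n → ℕ) : Prop :=
  (Module.finrank ℂ ↥(forms P d w) : ℤ) =
    max 0 (((d + 2).choose 2 : ℤ) - ∑ i, ((w i + 1).choose 2 : ℤ))

/-- For points `P` of a nonempty open set (the complement of a hypersurface `F = 0` of the space of
all `P`), `h⁰ = max (0, χ)` in degree `d`. -/
def NonSpecial {n : ℕ} (d : ℕ) (w : Fin n → ℕ) : Prop :=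
  ∃ F : MvPolynomial (Fin n × Fin 2) ℂ, F ≠ 0 ∧
    ∀ P : Fin n → Fin 2 → ℂ, eval (fun ij : Fin n × Fin 2 => P ij.1 ij.2) F ≠ 0 → Expected P d w

/-- For points `P` of a nonempty open set (the complement of a hypersurface `F = 0` of the space of
all `P`), `h⁰ = max (0, χ)` for every degree `d`. -/
def EveryDegree {n : ℕ} (w : Fin n → ℕ) : Prop :=
  ∃ F : MvPolynomial (Fin n × Fin 2) ℂ, F ≠ 0 ∧
    ∀ P : Fin n → Fin 2 → ℂ, eval (fun ij : Fin n × Fin 2 => P ij.1 ij.2) F ≠ 0 →
      ∀ d : ℕ, Expected P d w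

/-- The number of conditions. -/
def conditions {n : ℕ} (w : Fin n → ℕ) : ℕ := ∑ i, (w i + 1).choose 2

/-- The system which consists of the points of the group `j` (the others get the multiplicity `0`). -/
def group {n r : ℕ} (w : Fin n → ℕ) (g : Fin n → Fin r) (j : Fin r) : Fin n → ℕ :=
  fun i => if g i = j then w i else 0

/-- The number of the points of the group `j`. -/
def size {n r : ℕ} (g : Fin n → Fin r) (j : Fin r) : ℕ := (Finset.univ.filter fun i => g i = j).card

/-- Cases in which `k` points with multiplicities in `[m, m + s]` are never special: `s ≤ 1` and `k ≥ 96` or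
`k = 4 ^ j`, `9 * 4 ^ j`, `13 * 4 ^ j`; or `s = 0` and `k = 21` or `k ≥ 37`; or `1000 (s + 1) ≤ √k` and
`1000000 (s + 1) ^ 3 ≤ m √k`. -/
def Base (k m s : ℕ) : Prop :=
  (s ≤ 1 ∧ (96 ≤ k ∨ ∃ j, k = 4 ^ j ∨ k = 9 * 4 ^ j ∨ k = 13 * 4 ^ j)) ∨
  (s = 0 ∧ (k = 21 ∨ 37 ≤ k)) ∨
  (1000 * ((s : ℝ) + 1) ≤ √(k : ℝ) ∧ 1000000 * ((s : ℝ) + 1) ^ 3 ≤ m * √(k : ℝ))

/-- The group `j` is non-special in the degrees `t - 1` and `t`, where `t` is its level, that is the number
of conditions is at least `t (t + 1) / 2` and less than `(t + 1) (t + 2) / 2`; or it is one of the cases of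
`Base`. -/
def Fine {n r : ℕ} (w : Fin n → ℕ) (g : Fin n → Fin r) (j : Fin r) : Prop :=
  (∀ t, (t + 1).choose 2 ≤ conditions (group w g j) → conditions (group w g j) < (t + 2).choose 2 →
    NonSpecial (t - 1) (group w g j) ∧ NonSpecial t (group w g j)) ∨
  ∃ a s, 1 ≤ a ∧ Base (size g j) a s ∧ ∀ i, g i = j → a ≤ w i ∧ w i ≤ a + s

open Pool.Agent.W71.NN Pool.Agent.TH641.UM Pool.Agent.TH545.SD

theorem ns_of {n d : ℕ} {w : Fin n → ℕ} (h : NonSpecial d w) : Ns d (ms w) := by
  obtain ⟨F, hF, hF'⟩ := h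
  refine ⟨GD_of_open (K := ℂ) ⟨F, hF, fun P hP => ?_⟩⟩
  have h2 := hF' P hP
  unfold Expected forms at h2
  unfold Pool.Agent.H932R3.ExpDim
  have e : ∑ i, ((w i + 1).choose 2 : ℤ) = ((∑ i, (w i + 1).choose 2 : ℕ) : ℤ) := by
    push_cast
    rfl
  rw [e] at h2
  omega

theorem expected_of {n d : ℕ} {w : Fin n → ℕ} {P : Fin n → Fin 2 → ℂ}
    (h : Pool.Agent.H932R3.ExpDim ℂ w P d) : Expected P d w := by
  unfold Pool.Agent.H932R3.ExpDim at h
  unfold Expected forms
  rw [h]
  have e : ∑ i, ((w i + 1).choose 2 : ℤ) = ((∑ i, (w i + 1).choose 2 : ℕ) : ℤ) := by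
    push_cast
    rfl
  rw [e]
  omega

theorem nonSpecial_of {n d : ℕ} {w : Fin n → ℕ} (h : Ns d (ms w)) : NonSpecial d w := by
  obtain ⟨F, hF, hF'⟩ := GD.expDim h.out
  refine ⟨F.map (algebraMap ℚ ℂ), Pool.Agent.H932R3.map_ne_zero_of hF, fun P hP => ?_⟩
  rw [MvPolynomial.eval_map] at hP
  exact expected_of (hF' (L := ℂ) P hP)

theorem every_of {n : ℕ} {w : Fin n → ℕ} (h : Good (ms w)) : EveryDegree w := by
  obtain ⟨F, hF, hF'⟩ := Gd.expDim h.out
  refine ⟨F.map (algebraMap ℚ ℂ), Pool.Agent.H932R3.map_ne_zero_of hF, fun P hP d => ?_⟩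
  rw [MvPolynomial.eval_map] at hP
  exact expected_of (hF' (L := ℂ) P hP d)

theorem ms_append {n k : ℕ} (w : Fin n → ℕ) (u : Fin k → ℕ) : ms (Fin.append w u) = ms w + ms u := by
  unfold ms
  rw [Fin.sum_univ_add]
  simp

/-- the multiset of a group -/
noncomputable def grp {n r : ℕ} (w : Fin n → ℕ) (g : Fin n → Fin r) (j : Fin r) : Multiset ℕ :=
  ∑ i ∈ Finset.univ.filter (fun i => g i = j), {w i}

theorem co_grp {n r : ℕ} (w : Fin n → ℕ) (g : Fin n → Fin r) (j : Fin r) :
    co (grp w g j) = conditions (group w g j) := co_group w g j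

theorem ns_grp {n r : ℕ} {w : Fin n → ℕ} {g : Fin n → Fin r} {j : Fin r} {d : ℕ}
    (h : NonSpecial d (group w g j)) : Ns d (grp w g j) := (Ns_group w g j).1 (ns_of h)

theorem sum_grp {n r : ℕ} (w : Fin n → ℕ) (g : Fin n → Fin r) : ∑ j, grp w g j = ms w :=
  sum_groups w g

theorem ms_cons {k : ℕ} (b : ℕ) (u : Fin k → ℕ) :
    ms (Fin.cons b u : Fin (k + 1) → ℕ) = b ::ₘ ms u := by
  unfold ms
  rw [Fin.sum_univ_succ]
  simp only [Fin.cons_zero, Fin.cons_succ]
  rw [Multiset.singleton_add]

/-- composition -/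
theorem composition {k s b d : ℕ} (c : Fin k → ℕ) (e : Fin s → ℕ) (hb : 1 ≤ b)
    (lo : (b + 1).choose 2 ≤ conditions c) (hi : conditions c ≤ (b + 2).choose 2)
    (h0 : NonSpecial (b - 1) c) (h1 : NonSpecial b c)
    (g1 : conditions c < (b + 2).choose 2 → NonSpecial d (Fin.cons b e : Fin (s + 1) → ℕ))
    (g2 : (b + 1).choose 2 < conditions c → NonSpecial d (Fin.cons (b + 1) e : Fin (s + 1) → ℕ)) :
    NonSpecial d (Fin.append c e) := by
  apply nonSpecial_of
  rw [ms_append]
  have hc : co (ms c) = conditions c := co_ms c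
  have e2 : (b + 2).choose 2 = (b + 1).choose 2 + (b + 1) := by
    rw [Nat.choose_succ_succ' (b + 1) 1, Nat.choose_one_right]
    ring
  rcases lo.eq_or_lt with hl | hl
  · refine Ns.exact hb (ns_of h0) (hc.trans hl.symm) ?_
    have h2 := ns_of (g1 (by omega))
    rwa [ms_cons] at h2
  · rcases hi.eq_or_lt with hh | hh
    · refine Ns.exact (b := b + 1) (by omega) ?_ (hc.trans hh) ?_
      · have e1 : b + 1 - 1 = b := by omega
        rw [e1]
        exact ns_of h1
      · have h2 := ns_of (g2 hl)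
        rwa [ms_cons] at h2
    · have h2 := ns_of (g1 hh)
      have h3 := ns_of (g2 hl)
      rw [ms_cons] at h2 h3
      exact Ns.subst hb (ns_of h0) (ns_of h1) (by rw [hc]; exact lo) (by rw [hc]; exact hi) h2 h3

theorem card_grp {n r : ℕ} (w : Fin n → ℕ) (g : Fin n → Fin r) (j : Fin r) :
    (grp w g j).card = size g j := by
  unfold grp size
  rw [Multiset.card_sum]
  simp

theorem mem_grp {n r : ℕ} {w : Fin n → ℕ} {g : Fin n → Fin r} {j : Fin r} {y : ℕ}
    (h : y ∈ grp w g j) : ∃ i, g i = j ∧ w i = y := by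
  unfold grp at h
  rw [Multiset.mem_sum] at h
  obtain ⟨i, hi, hy⟩ := h
  exact ⟨i, (Finset.mem_filter.1 hi).2, (Multiset.mem_singleton.1 hy).symm⟩

theorem fine_ns {n r : ℕ} {w : Fin n → ℕ} {g : Fin n → Fin r} {j : Fin r} (h : Fine w g j) (t : ℕ)
    (h1 : (t + 1).choose 2 ≤ co (grp w g j)) (h2 : co (grp w g j) < (t + 2).choose 2) :
    Ns (t - 1) (grp w g j) ∧ Ns t (grp w g j) := by
  rcases h with h | ⟨a, s, ha, hB, hw⟩
  · rw [co_grp] at h1 h2
    exact ⟨ns_grp (h t h1 h2).1, ns_grp (h t h1 h2).2⟩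
  · have hg : Good (grp w g j) := by
      refine good_base (s := s) ha (fun y hy => ?_) (by rw [card_grp]; exact hB)
      obtain ⟨i, hi, rfl⟩ := mem_grp hy
      exact hw i hi
    exact ⟨hg.ns _, hg.ns _⟩

/-- groups of nearly the same number of conditions -/
theorem groups {n r m s : ℕ} (w : Fin n → ℕ) (g : Fin n → Fin r) (p : ℕ) (hm : 1 ≤ m)
    (hB : Base r m s) (hG : ∀ j, Fine w g j)
    (hc : ∀ j, (m + 1).choose 2 ≤ conditions (group w g j) ∧
      conditions (group w g j) ≤ (m + s + 1).choose 2) :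
    EveryDegree (Fin.append w fun _ : Fin p => 1) := by
  apply every_of
  rw [ms_append, ← sum_grp w g, ms_fin]
  exact good_groups (grp w g) hm hB (fun j t h1 h2 => fine_ns (hG j) t h1 h2)
    (fun j => by rw [co_grp]; exact (hc j).1) (fun j => by rw [co_grp]; exact (hc j).2) p

theorem sum_co_grp {n r : ℕ} (w : Fin n → ℕ) (g : Fin n → Fin r) :
    ∑ j, co (grp w g j) = conditions w := by
  have h1 : ∀ j, co (grp w g j) = ∑ i ∈ Finset.univ.filter (fun i => g i = j), (w i + 1).choose 2 := by
    intro j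
    unfold grp
    rw [sum_single, co_map]
  rw [Finset.sum_congr rfl fun j _ => h1 j]
  exact Finset.sum_fiberwise Finset.univ g fun i => (w i + 1).choose 2

/-- drop the zeros -/
theorem every_zeros {n q p : ℕ} {w : Fin n → ℕ} {u : Fin q → ℕ} {S : Multiset ℕ} {z : ℕ}
    (hu : ms u = S + z • {0}) (h : Good (ms w + S + p • {1})) :
    EveryDegree (Fin.append (Fin.append w u) fun _ : Fin p => 1) := by
  apply every_of
  rw [ms_append, ms_append, ms_fin, hu]
  have e : ms w + (S + z • ({0} : Multiset ℕ)) + p • {1} = (ms w + S + p • {1}) + z • {0} := by abel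
  rw [e]
  exact good_of_all fun d => Ns_zeros.2 (h.ns d)

/-- small multiplicities are free: groups of nearly the same number of conditions, simple points -/
theorem fill {n r q p M h : ℕ} (w : Fin n → ℕ) (g : Fin n → Fin r) (u : Fin q → ℕ) (h1 : 1 ≤ h)
    (hh : h * (h + 1) ≤ 2 * (M + 1)) (hb : 25000 * (h + 1) ^ 3 ≤ M * (M + 1))
    (hG : ∀ j, Fine w g j)
    (hc : ∀ j, (M + 1).choose 2 ≤ conditions (group w g j) ∧
      conditions (group w g j) ≤ (M + 2).choose 2) (hu : ∀ i, u i ≤ h)
    (hK : ((M + 1).choose 2 ≤ p ∧ 96 * (M + 2).choose 2 ≤ conditions w + conditions u + p) ∨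
      (3 * (h * (h + 1)) ≤ 2 * (M + 1) ∧ (M + 1) ^ 3 ≤ conditions u)) :
    EveryDegree (Fin.append (Fin.append w u) fun _ : Fin p => 1) := by
  obtain ⟨S, hS1, hS2, hS3, -⟩ := ms_nonzero u
  refine every_zeros hS1 ?_
  have hS : ∀ y ∈ S, 1 ≤ y ∧ y ≤ h := fun y hy => by
    obtain ⟨i, rfl, hi⟩ := hS2 y hy
    have := hu i
    omega
  rcases hK with ⟨hp, hK⟩ | ⟨h3, hK⟩
  · have h2 := good_fill_groups (M := M) (p := p) (grp w g) S h1 hh hb
      (fun j t h1 h2 => fine_ns (hG j) t h1 h2)
      (fun j => by rw [co_grp]; exact (hc j).1) (fun j => by rw [co_grp]; exact (hc j).2)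
      hS hp (by
        rw [sum_co_grp, hS3]
        exact hK)
    rw [sum_grp, ← add_assoc] at h2
    exact h2
  · have h2 := good_many_groups (M := M) (grp w g) S h1 h3 hb
      (fun j t h1 h2 => fine_ns (hG j) t h1 h2)
      (fun j => by rw [co_grp]; exact (hc j).1) (fun j => by rw [co_grp]; exact (hc j).2)
      hS (by rw [hS3]; exact hK)
    rw [sum_grp] at h2
    exact good_of_all fun d => Ns.simple (h2.ns d) p

/-- small multiplicities are free: groups with few levels -/
theorem few {n k q r s h M : ℕ} (w : Fin n → ℕ) (g : Fin n → Fin k) (t : Fin k → ℕ)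
    (u : Fin q → ℕ) (p : ℕ) (hs1 : 1 ≤ s) (hs2 : s ≤ M)
    (hh : h * (h + 1) ≤ 2 * s * (M + 1)) (hb : 25000 * (h + 1) ^ 3 ≤ M * (M + 1))
    (hG : ∀ j, Fine w g j)
    (ht : ∀ j, 1 ≤ t j ∧ t j ≤ M ∧ (t j + 1).choose 2 ≤ conditions (group w g j) ∧
      conditions (group w g j) < (t j + 2).choose 2)
    (hr : (Finset.univ.image t).card ≤ r) (hu : ∀ i, u i ≤ h)
    (hS : q = 0 ∨ 25000 * (h + 1) ^ 2 ≤ ∑ i, u i)
    (hQ : 500000 * (2 * r + s + 2) * (M + 1) ^ 2 ≤ conditions w + conditions u) :
    EveryDegree (Fin.append (Fin.append w u) fun _ : Fin p => 1) := by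
  obtain ⟨S, hS1, hS2, hS3, hS4⟩ := ms_nonzero u
  refine every_zeros hS1 ?_
  have hN : ∀ j, Ns (t j - 1) (grp w g j) ∧ Ns (t j) (grp w g j) := fun j =>
    fine_ns (hG j) _ (by rw [co_grp]; exact (ht j).2.2.1) (by rw [co_grp]; exact (ht j).2.2.2)
  have h2 : Good (∑ j, grp w g j + S) := by
    refine good_levels (grp w g) t S (fun j => (ht j).1) (fun j => (ht j).2.1) hr
      (fun j => (hN j).1) (fun j => (hN j).2) (fun j => by rw [co_grp]; exact (ht j).2.2.1)
      (fun j => by rw [co_grp]; exact (ht j).2.2.2.le) hs1 hs2 hh hb (fun y hy => ?_) ?_ ?_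
    · obtain ⟨i, rfl, hi⟩ := hS2 y hy
      have := hu i
      omega
    · rcases hS with rfl | hS
      · left
        rw [Multiset.eq_zero_iff_forall_notMem]
        intro y hy
        obtain ⟨i, -⟩ := hS2 y hy
        exact i.elim0
      · right
        rw [hS4]
        exact hS
    · rw [sum_co_grp, hS3]
      exact hQ
  rw [sum_grp] at h2
  exact good_of_all fun d => Ns.simple (h2.ns d) p

/-- the special case of groups of one point -/
theorem near {n m : ℕ} (w : Fin n → ℕ) (hn : 96 ≤ n) (hm : 1 ≤ m) (hw : ∀ i, w i = m ∨ w i = m + 1) :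
    EveryDegree w := by
  refine every_of (good_near ?_ hm fun y hy => ?_)
  · rw [Pool.Agent.Y205.AV.ms_pos, Multiset.card_map]
    simpa using hn
  · rw [Pool.Agent.Y205.AV.ms_pos, Multiset.mem_map] at hy
    obtain ⟨i, _, rfl⟩ := hy
    exact hw i

/-- (1) composition in a fixed degree; (2) unions of groups with nearly the same number of conditions, and
the special case of groups of one point; (3), (4) small multiplicities are free. -/
theorem result :
    (∀ (k s b d : ℕ) (c : Fin k → ℕ) (e : Fin s → ℕ), 1 ≤ b → (b + 1).choose 2 ≤ conditions c →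
      conditions c ≤ (b + 2).choose 2 → NonSpecial (b - 1) c → NonSpecial b c →
      (conditions c < (b + 2).choose 2 → NonSpecial d (Fin.cons b e : Fin (s + 1) → ℕ)) →
      ((b + 1).choose 2 < conditions c → NonSpecial d (Fin.cons (b + 1) e : Fin (s + 1) → ℕ)) →
      NonSpecial d (Fin.append c e)) ∧
    (∀ (n r m s p : ℕ) (w : Fin n → ℕ) (g : Fin n → Fin r), 1 ≤ m → Base r m s →
      (∀ j, Fine w g j) →
      (∀ j, (m + 1).choose 2 ≤ conditions (group w g j) ∧
        conditions (group w g j) ≤ (m + s + 1).choose 2) →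
      EveryDegree (Fin.append w fun _ : Fin p => 1)) ∧
    (∀ (n m : ℕ) (w : Fin n → ℕ), 96 ≤ n → 1 ≤ m → (∀ i, w i = m ∨ w i = m + 1) →
      EveryDegree w) ∧
    (∀ (n r q p M h : ℕ) (w : Fin n → ℕ) (g : Fin n → Fin r) (u : Fin q → ℕ), 1 ≤ h →
      h * (h + 1) ≤ 2 * (M + 1) → 25000 * (h + 1) ^ 3 ≤ M * (M + 1) → (∀ j, Fine w g j) →
      (∀ j, (M + 1).choose 2 ≤ conditions (group w g j) ∧
        conditions (group w g j) ≤ (M + 2).choose 2) →
      (∀ i, u i ≤ h) →
      (((M + 1).choose 2 ≤ p ∧ 96 * (M + 2).choose 2 ≤ conditions w + conditions u + p) ∨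
        (3 * (h * (h + 1)) ≤ 2 * (M + 1) ∧ (M + 1) ^ 3 ≤ conditions u)) →
      EveryDegree (Fin.append (Fin.append w u) fun _ : Fin p => 1)) ∧
    ∀ (n k q r s h M p : ℕ) (w : Fin n → ℕ) (g : Fin n → Fin k) (t : Fin k → ℕ) (u : Fin q → ℕ),
      1 ≤ s → s ≤ M → h * (h + 1) ≤ 2 * s * (M + 1) → 25000 * (h + 1) ^ 3 ≤ M * (M + 1) →
      (∀ j, Fine w g j) →
      (∀ j, 1 ≤ t j ∧ t j ≤ M ∧ (t j + 1).choose 2 ≤ conditions (group w g j) ∧
        conditions (group w g j) < (t j + 2).choose 2) → (Finset.univ.image t).card ≤ r →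
      (∀ i, u i ≤ h) → (q = 0 ∨ 25000 * (h + 1) ^ 2 ≤ ∑ i, u i) →
      500000 * (2 * r + s + 2) * (M + 1) ^ 2 ≤ conditions w + conditions u →
      EveryDegree (Fin.append (Fin.append w u) fun _ : Fin p => 1) :=
  ⟨fun _ _ _ _ c e hb lo hi h0 h1 g1 g2 => composition c e hb lo hi h0 h1 g1 g2,
    fun _ _ _ _ p w g hm hB hG hc => groups w g p hm hB hG hc,
    fun _ _ w hn hm hw => near w hn hm hw,
    fun _ _ _ _ _ _ w g u h1 hh hb hG hc hu hK => fill w g u h1 hh hb hG hc hu hK,
    fun _ _ _ _ _ _ _ p w g t u hs1 hs2 hh hb hG ht hr hu hS hQ =>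
      few w g t u p hs1 hs2 hh hb hG ht hr hu hS hQ⟩

end Pool.Agent.Results.MP_70e04f_ag.Composition
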