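import Mathlib
import Pool.Agent.Y205.AV.Win
import Pool.Agent.H96.SR.Unif
import Pool.Agent.H96.SR.Tail
import Pool.Agent.H96.SR.Slln

set_option autoImplicit false

/-!
# The SHGH conjecture for random multiplicities: every degree

Let `w 0, w 1, …` be random multiplicities at general points of the complex projective plane.

* If the `w i` are pairwise independent and identically distributed with finite variance, and not
  almost surely zero, then almost surely, for all large `n`, the classes `d H - ∑_{i < n} w i E i`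
  of ALL degrees `d` have `h⁰ = max (0, χ)`.
* If `w 0, …, w (n - 1)` are independent with values in `{0, …, μ}` and
  `S = ∑ 𝔼 (w i) ≥ 50000 (μ + 1) ^ 2`, then this holds (in all degrees) with probability at least
  `1 - exp (- S / (7 μ))`. In particular, if `n ≥ 400000 m` and `m ≥ 1`, it holds for all but
  `(m + 1) ^ n exp (- n / 14)` of the vectors `w ∈ {0, …, m} ^ n`.
-/

namespace Pool.Agent.Results.MP_70e04f_ag.RandomEveryDegree

open MvPolynomial MeasureTheory ProbabilityTheory Filter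

/-- Forms of degree `d` vanishing to order at least `w i` at the points `(P i 0 : P i 1 : 1)`. -/
noncomputable def forms {n : ℕ} (P : Fin n → Fin 2 → ℂ) (d : ℕ) (w : Fin n → ℕ) :
    Submodule ℂ (MvPolynomial (Fin 3) ℂ) :=
  homogeneousSubmodule (Fin 3) ℂ d ⊓
    Submodule.restrictScalars ℂ
      (⨅ i : Fin n, (Ideal.span {X 0 - C (P i 0) * X 2, X 1 - C (P i 1) * X 2} :
        Ideal (MvPolynomial (Fin 3) ℂ)) ^ (w i))

/-- `h⁰(d H - ∑ w i E i) = max (0, χ(d H - ∑ w i E i))` on the blow-up of the plane at the points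
`P`. -/
def Expected {n : ℕ} (P : Fin n → Fin 2 → ℂ) (d : ℕ) (w : Fin n → ℕ) : Prop :=
  (Module.finrank ℂ ↥(forms P d w) : ℤ) =
    max 0 (((d + 2).choose 2 : ℤ) - ∑ i, ((w i + 1).choose 2 : ℤ))

/-- For points `P` of a nonempty open set (the complement of a hypersurface `F = 0` of the space of
all `P`), `h⁰ = max (0, χ)` for every degree `d`. -/
def EveryDegree {n : ℕ} (w : Fin n → ℕ) : Prop :=
  ∃ F : MvPolynomial (Fin n × Fin 2) ℂ, F ≠ 0 ∧
    ∀ P : Fin n → Fin 2 → ℂ, eval (fun ij : Fin n × Fin 2 => P ij.1 ij.2) F ≠ 0 →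
      ∀ d : ℕ, Expected P d w

theorem expected_of {n : ℕ} {P : Fin n → Fin 2 → ℂ} {d : ℕ} {w : Fin n → ℕ}
    (h : Pool.Agent.H932R3.ExpDim ℂ w P d) : Expected P d w := by
  unfold Pool.Agent.H932R3.ExpDim at h
  unfold Expected forms
  rw [h]
  have e : ∑ i, ((w i + 1).choose 2 : ℤ) = ((∑ i, (w i + 1).choose 2 : ℕ) : ℤ) := by
    push_cast
    rfl
  rw [e]
  omega

theorem every_of {n : ℕ} {w : Fin n → ℕ} {μ : ℕ} (hμ : ∀ i, w i ≤ μ)
    (h : 25000 * (μ + 1) ^ 2 ≤ ∑ i, w i) : EveryDegree w := by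
  obtain ⟨F, hF, hF'⟩ := Pool.Agent.Y205.AV.big_vectors w
  refine ⟨F.map (algebraMap ℚ ℂ), Pool.Agent.H932R3.map_ne_zero_of hF, fun P hP d => ?_⟩
  rw [MvPolynomial.eval_map] at hP
  exact expected_of (hF' P hP d μ hμ (Or.inl (h.trans (Nat.le_add_right _ _))))

theorem part_iid {Ω : Type} [MeasurableSpace Ω] (Q : Measure Ω) [IsProbabilityMeasure Q]
    (w : ℕ → Ω → ℕ) (hind : Pairwise fun i j => IndepFun (w i) (w j) Q)
    (hid : ∀ i, IdentDistrib (w i) (w 0) Q Q)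
    (hint : Integrable (fun ω => (w 0 ω : ℝ) ^ 2) Q) (hne : ¬ ∀ᵐ ω ∂Q, w 0 ω = 0) :
    ∀ᵐ ω ∂Q, ∀ᶠ n : ℕ in atTop, EveryDegree fun i : Fin n => w i ω := by
  filter_upwards [Pool.Agent.H96.SR.slln_big w hind hid hint hne 25000] with ω hω
  filter_upwards [hω] with n hn
  obtain ⟨μ, h1, h2⟩ := hn
  refine every_of (μ := μ) (fun i => h1 i i.2) ?_
  rw [Fin.sum_univ_eq_sum_range (fun i => w i ω) n]
  exact h2

theorem part_all {n μ : ℕ} (ν : Fin n → Measure ℕ) [∀ i, IsProbabilityMeasure (ν i)]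
    (hν : ∀ i, ∀ᵐ x ∂(ν i), x ≤ μ)
    (h : 50000 * ((μ : ℝ) + 1) ^ 2 ≤ ∑ i, ∫ x, (x : ℝ) ∂(ν i)) :
    (Measure.pi ν).real {w | ¬ EveryDegree w} ≤
      Real.exp (-(∑ i, ∫ x, (x : ℝ) ∂(ν i)) / (7 * μ)) := by
  have hμ : 1 ≤ μ := by
    by_contra hc
    have hc' : μ = 0 := by omega
    subst hc'
    have h0 : ∑ i, ∫ x, (x : ℝ) ∂(ν i) = 0 := by
      refine Finset.sum_eq_zero fun i _ => ?_
      refine integral_eq_zero_of_ae ?_
      filter_upwards [hν i] with x hx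
      have : x = 0 := by omega
      simp [this]
    rw [h0] at h
    norm_num at h
  refine le_trans ?_ (Pool.Agent.H96.SR.lower_tail ν hμ hν)
  refine ENNReal.toReal_mono (measure_ne_top _ _) (measure_mono_ae ?_)
  filter_upwards [Pool.Agent.H96.SR.ae_le ν hν] with w hw hwe
  by_contra hc
  apply hwe
  refine every_of hw ?_
  have hc' : ∑ i, ∫ x, (x : ℝ) ∂(ν i) < 2 * ∑ i, (w i : ℝ) := not_le.1 hc
  have h1 : 25000 * ((μ : ℝ) + 1) ^ 2 ≤ ∑ i, (w i : ℝ) := by linarith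
  exact_mod_cast h1

theorem result :
    (∀ (Ω : Type) [MeasurableSpace Ω] (Q : Measure Ω) [IsProbabilityMeasure Q] (w : ℕ → Ω → ℕ),
      (Pairwise fun i j => IndepFun (w i) (w j) Q) → (∀ i, IdentDistrib (w i) (w 0) Q Q) →
      Integrable (fun ω => (w 0 ω : ℝ) ^ 2) Q → (¬ ∀ᵐ ω ∂Q, w 0 ω = 0) →
      ∀ᵐ ω ∂Q, ∀ᶠ n : ℕ in atTop, EveryDegree fun i : Fin n => w i ω) ∧
    (∀ (n μ : ℕ) (ν : Fin n → Measure ℕ) [∀ i, IsProbabilityMeasure (ν i)],
      (∀ i, ∀ᵐ x ∂(ν i), x ≤ μ) →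
      50000 * ((μ : ℝ) + 1) ^ 2 ≤ ∑ i, ∫ x, (x : ℝ) ∂(ν i) →
      (Measure.pi ν).real {w | ¬ EveryDegree w} ≤
        Real.exp (-(∑ i, ∫ x, (x : ℝ) ∂(ν i)) / (7 * μ))) ∧
    (∀ n m : ℕ, 1 ≤ m → 400000 * m ≤ n →
      (Set.ncard {w : Fin n → ℕ | (∀ i, w i ≤ m) ∧ ¬ EveryDegree w} : ℝ) ≤
        ((m : ℝ) + 1) ^ n * Real.exp (-(n : ℝ) / 14)) := by
  refine ⟨fun Ω _ Q _ w h1 h2 h3 h4 => part_iid Q w h1 h2 h3 h4,
    fun n μ ν _ h1 h2 => part_all ν h1 h2, fun n m hm hn => ?_⟩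
  refine (Pool.Agent.H96.SR.count_le (n := n) (m := m) {w : Fin n → ℕ | ¬ EveryDegree w}).trans ?_
  refine mul_le_mul_of_nonneg_left ?_ (by positivity)
  have hm' : (1 : ℝ) ≤ m := by exact_mod_cast hm
  have hn' : 400000 * (m : ℝ) ≤ n := by exact_mod_cast hn
  have h2 := part_all (n := n) (μ := m) (fun _ => Pool.Agent.H96.SR.uni m)
    (fun _ => Pool.Agent.H96.SR.uni_le m) (by
      simp only [Pool.Agent.H96.SR.uni_mean]
      rw [Finset.sum_const, Finset.card_univ, Fintype.card_fin, nsmul_eq_mul]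
      nlinarith)
  refine h2.trans (le_of_eq ?_)
  simp only [Pool.Agent.H96.SR.uni_mean]
  rw [Finset.sum_const, Finset.card_univ, Fintype.card_fin, nsmul_eq_mul]
  congr 1
  field_simp
  ring

end Pool.Agent.Results.MP_70e04f_ag.RandomEveryDegree
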