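import Mathlib
import Pool.Agent.Y205.AV.Win
import Pool.Agent.H96.SR.Unif
import Pool.Agent.H96.SR.Tail

set_option autoImplicit false

/-!
# The SHGH conjecture for almost all vectors of multiplicities

Let `w 0, …, w (n - 1)` be independent random multiplicities with values in `{0, …, μ}` at `n`
general points of the complex projective plane, and `d` any degree. The probability that
`d H - ∑ w i E i` does not have `h⁰ = max (0, χ)` is at most `(25000 / c + 1) / √(∑ p i)`, where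
`p i` is the probability that `|w (w + 1) - w' (w' + 1)| ≥ c (μ + 1) ^ 2` for independent
copies `w`, `w'` of `w i`. There is no relation between `n`, `μ` and `d`.

In particular, for all `n`, `m ≥ 1`, `d` all but `600000 (m + 1) ^ n / √n` of the vectors
`w ∈ {0, …, m} ^ n` have `h⁰ = max (0, χ)` in degree `d` at general points.
-/

namespace Pool.Agent.Results.MP_70e04f_ag.RandomFixedDegree

open MvPolynomial MeasureTheory

/-- Forms of degree `d` vanishing to order at least `w i` at the points `(P i 0 : P i 1 : 1)`. -/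
noncomputable def forms {n : ℕ} (P : Fin n → Fin 2 → ℂ) (d : ℕ) (w : Fin n → ℕ) :
    Submodule ℂ (MvPolynomial (Fin 3) ℂ) :=
  homogeneousSubmodule (Fin 3) ℂ d ⊓
    Submodule.restrictScalars ℂ
      (⨅ i : Fin n, (Ideal.span {X 0 - C (P i 0) * X 2, X 1 - C (P i 1) * X 2} :
        Ideal (MvPolynomial (Fin 3) ℂ)) ^ (w i))

/-- `h⁰(d H - ∑ w i E i) = max (0, χ(d H - ∑ w i E i))` on the blow-up of the plane at the points
`P`. -/
def Expected {n : ℕ} (P : Fin n → Fin 2 → ℂ) (d : ℕ) (w : Fin n → ℕ) : Prop :=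
  (Module.finrank ℂ ↥(forms P d w) : ℤ) =
    max 0 (((d + 2).choose 2 : ℤ) - ∑ i, ((w i + 1).choose 2 : ℤ))

/-- For points `P` of a nonempty open set (the complement of a hypersurface `F = 0` of the space of
all `P`), `h⁰ = max (0, χ)` in degree `d`. -/
def NonSpecial {n : ℕ} (d : ℕ) (w : Fin n → ℕ) : Prop :=
  ∃ F : MvPolynomial (Fin n × Fin 2) ℂ, F ≠ 0 ∧
    ∀ P : Fin n → Fin 2 → ℂ, eval (fun ij : Fin n × Fin 2 => P ij.1 ij.2) F ≠ 0 →
      Expected P d w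

theorem expected_of {n : ℕ} {P : Fin n → Fin 2 → ℂ} {d : ℕ} {w : Fin n → ℕ}
    (h : Pool.Agent.H932R3.ExpDim ℂ w P d) : Expected P d w := by
  unfold Pool.Agent.H932R3.ExpDim at h
  unfold Expected forms
  rw [h]
  have e : ∑ i, ((w i + 1).choose 2 : ℤ) = ((∑ i, (w i + 1).choose 2 : ℕ) : ℤ) := by
    push_cast
    rfl
  rw [e]
  omega

theorem nonSpecial_of {n : ℕ} {d : ℕ} {w : Fin n → ℕ} {μ : ℕ} (hμ : ∀ i, w i ≤ μ)
    (h : 12500 * ((μ : ℝ) + 1) ^ 2 ≤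
      |∑ i, (w i : ℝ) * (w i + 1) - ((d : ℝ) + 1) * (d + 2)|) : NonSpecial d w := by
  obtain ⟨F, hF, hF'⟩ := Pool.Agent.Y205.AV.big_vectors w
  refine ⟨F.map (algebraMap ℚ ℂ), Pool.Agent.H932R3.map_ne_zero_of hF, fun P hP => ?_⟩
  rw [MvPolynomial.eval_map] at hP
  refine expected_of (hF' P hP d μ hμ (Or.inl ?_))
  have h1 : 12500 * (μ + 1) ^ 2 ≤ Pool.Agent.Y205.AV.gap w d := by
    have e1 : ∑ i, (w i : ℝ) * (w i + 1) = ((∑ i, w i * (w i + 1) : ℕ) : ℝ) := by push_cast; rfl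
    have e2 : ((d : ℝ) + 1) * (d + 2) = (((d + 1) * (d + 2) : ℕ) : ℝ) := by push_cast; rfl
    have e3 : 12500 * ((μ : ℝ) + 1) ^ 2 = ((12500 * (μ + 1) ^ 2 : ℕ) : ℝ) := by push_cast; rfl
    rw [e1, e2, e3] at h
    unfold Pool.Agent.Y205.AV.gap
    obtain ⟨a, ha⟩ : ∃ a, a = ∑ i, w i * (w i + 1) := ⟨_, rfl⟩
    obtain ⟨b, hb⟩ : ∃ b, b = (d + 1) * (d + 2) := ⟨_, rfl⟩
    obtain ⟨c, hc⟩ : ∃ c, c = 12500 * (μ + 1) ^ 2 := ⟨_, rfl⟩
    rw [← ha, ← hb, ← hc] at h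
    rw [← ha, ← hb, ← hc]
    have h' : (c : ℤ) ≤ |(a : ℤ) - b| := by exact_mod_cast h
    rcases le_abs.1 h' with h' | h' <;> omega
  omega

theorem part_one {n μ : ℕ} (d : ℕ) (ν : Fin n → Measure ℕ) [∀ i, IsProbabilityMeasure (ν i)]
    (hν : ∀ i, ∀ᵐ x ∂(ν i), x ≤ μ) {c : ℝ} (hc : 0 < c) :
    (Measure.pi ν).real {w | ¬ NonSpecial d w} *
      Real.sqrt (∑ i, ((ν i).prod (ν i)).real {x | c * ((μ : ℝ) + 1) ^ 2 ≤
        |(x.1 : ℝ) * (x.1 + 1) - (x.2 : ℝ) * (x.2 + 1)|}) ≤ 25000 / c + 1 := by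
  obtain ⟨K, hK⟩ : ∃ K : ℕ, K = ⌈25000 / c⌉₊ := ⟨_, rfl⟩
  have hK1 : 25000 / c ≤ K := by rw [hK]; exact Nat.le_ceil _
  have hK2 : (K : ℝ) ≤ 25000 / c + 1 := by
    rw [hK]
    exact (Nat.ceil_lt_add_one (by positivity)).le
  have hm : (0 : ℝ) < ((μ : ℝ) + 1) ^ 2 := by positivity
  have h1 := Pool.Agent.H96.SR.concentration ν (fun _ (x : ℕ) => (x : ℝ) * (x + 1))
    (δ := c * ((μ : ℝ) + 1) ^ 2) (L := 12500 * ((μ : ℝ) + 1) ^ 2)
    (((d : ℝ) + 1) * (d + 2)) (by positivity) K (by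
      rw [div_le_iff₀ hc] at hK1
      nlinarith)
  refine le_trans ?_ (h1.trans hK2)
  refine mul_le_mul_of_nonneg_right ?_ (Real.sqrt_nonneg _)
  refine ENNReal.toReal_mono (measure_ne_top _ _) (measure_mono_ae ?_)
  filter_upwards [Pool.Agent.H96.SR.ae_le ν hν] with w hw hwe
  by_contra hc
  exact hwe (nonSpecial_of hw (not_lt.1 hc))

theorem result :
    (∀ (n μ d : ℕ) (ν : Fin n → Measure ℕ) [∀ i, IsProbabilityMeasure (ν i)],
      (∀ i, ∀ᵐ x ∂(ν i), x ≤ μ) → ∀ c : ℝ, 0 < c →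
      (Measure.pi ν).real {w | ¬ NonSpecial d w} *
        Real.sqrt (∑ i, ((ν i).prod (ν i)).real {x | c * ((μ : ℝ) + 1) ^ 2 ≤
          |(x.1 : ℝ) * (x.1 + 1) - (x.2 : ℝ) * (x.2 + 1)|}) ≤ 25000 / c + 1) ∧
    (∀ n m d : ℕ, 1 ≤ m →
      (Set.ncard {w : Fin n → ℕ | (∀ i, w i ≤ m) ∧ ¬ NonSpecial d w} : ℝ) * Real.sqrt n ≤
        600000 * ((m : ℝ) + 1) ^ n) := by
  refine ⟨fun n μ d ν _ h1 c hc => part_one d ν h1 hc, fun n m d hm => ?_⟩
  have h1 := Pool.Agent.H96.SR.count_le (n := n) (m := m) {w : Fin n → ℕ | ¬ NonSpecial d w}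
  have h2 := part_one (n := n) (μ := m) d (fun _ => Pool.Agent.H96.SR.uni m)
    (fun _ => Pool.Agent.H96.SR.uni_le m) (c := 3 / 16) (by norm_num)
  have h3 := Pool.Agent.H96.SR.uni_far hm
  rw [Finset.sum_const, Finset.card_univ, Fintype.card_fin, nsmul_eq_mul] at h2
  obtain ⟨p, hp⟩ : ∃ p : ℝ, p = ((Pool.Agent.H96.SR.uni m).prod (Pool.Agent.H96.SR.uni m)).real
    {x | (3 / 16 : ℝ) * ((m : ℝ) + 1) ^ 2 ≤
      |(x.1 : ℝ) * (x.1 + 1) - (x.2 : ℝ) * (x.2 + 1)|} := ⟨_, rfl⟩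
  obtain ⟨q, hq⟩ : ∃ q : ℝ, q = (Measure.pi fun _ : Fin n => Pool.Agent.H96.SR.uni m).real
    {w | ¬ NonSpecial d w} := ⟨_, rfl⟩
  rw [← hp] at h2 h3
  rw [← hq] at h1 h2
  have hq0 : 0 ≤ q := by rw [hq]; exact measureReal_nonneg
  have h4 : Real.sqrt n / 4 ≤ Real.sqrt (n * p) := by
    have e : Real.sqrt n / 4 = Real.sqrt (n * (1 / 16)) := by
      rw [Real.sqrt_mul (Nat.cast_nonneg n), show (1 / 16 : ℝ) = (1 / 4) ^ 2 by norm_num,
        Real.sqrt_sq (by norm_num)]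
      ring
    rw [e]
    exact Real.sqrt_le_sqrt (mul_le_mul_of_nonneg_left h3 (Nat.cast_nonneg n))
  have h5 : q * Real.sqrt n ≤ 600000 := by
    have h6 := mul_le_mul_of_nonneg_left h4 hq0
    have e : (25000 : ℝ) / (3 / 16) + 1 = 400003 / 3 := by norm_num
    rw [e] at h2
    linarith
  have h7 : (0 : ℝ) ≤ ((m : ℝ) + 1) ^ n := by positivity
  calc (Set.ncard {w : Fin n → ℕ | (∀ i, w i ≤ m) ∧ ¬ NonSpecial d w} : ℝ) * Real.sqrt n
      ≤ (((m : ℝ) + 1) ^ n * q) * Real.sqrt n :=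
        mul_le_mul_of_nonneg_right h1 (Real.sqrt_nonneg _)
    _ = ((m : ℝ) + 1) ^ n * (q * Real.sqrt n) := by ring
    _ ≤ ((m : ℝ) + 1) ^ n * 600000 := mul_le_mul_of_nonneg_left h5 h7
    _ = 600000 * ((m : ℝ) + 1) ^ n := by ring

end Pool.Agent.Results.MP_70e04f_ag.RandomFixedDegree
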