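import Mathlib
import Pool.Agent.W5h90.TG.Grp

set_option autoImplicit false

/-!
# The SHGH conjecture for ten or more groups of points

General points of the complex projective plane. A multiplicity `w` imposes `w (w + 1) / 2` conditions.

The points form `r ≥ 10` groups. The number of conditions of the group `j` is between those of one point of
multiplicity `μ j` and one point of multiplicity `ν j`, where `m ≤ μ j ≤ ν j ≤ m + 1`, and the group `j`
alone is non-special in the degrees `μ j - 1` and `ν j - 1`. Apart from this the numbers of points of the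
groups and their multiplicities are arbitrary; and there may be any number of further simple points. Let

  `κ (N, d) = 2 d + 3 - √r - 2 N / √r`.

* The system is non-special in every degree `d` such that `κ (N, d)` is not in the interval
  `[-lo r, hi r]` around zero, of length less than two, for all `N` with `∑ μ j ≤ N ≤ ∑ ν j`. So it is
  non-special in all degrees outside of an interval of length less than `1 + (∑ ν j - ∑ μ j) / √r`; and in
  all degrees but at most one if `μ = ν`, that is if every group has exactly the number of conditions of a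
  point of multiplicity `m` or `m + 1`.
* If `κ (N, d)` is in the interval for no `d` and no such `N`, the system is special in no degree. For
  `μ = ν`, `N = ∑ μ j`, this holds, if `r` is not a square, for a proportion of at least
  `1 - (lo r + hi r) / 2 > 3 / 100` of the numbers `N`; the proportion is more than `83 %`, `68 %`, `53 %` for
  `r = 10, 11, 12`. If `r = s ^ 2`, where `s ≥ 5` is odd, it holds if `N` is `(s + 1) / 2` modulo `s`.
* The groups may be single points. So the conjecture holds in all degrees for a positive proportion of the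
  vectors of multiplicities `m` and `m + 1` at every non-square number `r ≥ 10` of points (and any number of
  further simple points).

For single points the first assertion is contained in the starting result `NearUniformEveryDegree`. The
substitution of the groups is the composition of linear systems of the hand-in `Composition`, where the
union of `r` groups is treated for `r ≥ 96` (and for some other `r`), but not for `10, 11, 12, ...` groups.
-/

namespace Pool.Agent.Results.MP_70e04f_ag.TenGroups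

open MvPolynomial

/-- Forms of degree `d` vanishing to order at least `w i` at the points `(P i 0 : P i 1 : 1)`. -/
noncomputable def forms {n : ℕ} (P : Fin n → Fin 2 → ℂ) (d : ℕ) (w : Fin n → ℕ) :
    Submodule ℂ (MvPolynomial (Fin 3) ℂ) :=
  homogeneousSubmodule (Fin 3) ℂ d ⊓
    Submodule.restrictScalars ℂ
      (⨅ i : Fin n, (Ideal.span {X 0 - C (P i 0) * X 2, X 1 - C (P i 1) * X 2} :
        Ideal (MvPolynomial (Fin 3) ℂ)) ^ (w i))

/-- `h⁰(d H - ∑ w i E i) = max (0, χ(d H - ∑ w i E i))` on the blow-up of the plane at the points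
`P`. -/
def Expected {n : ℕ} (P : Fin n → Fin 2 → ℂ) (d : ℕ) (w : Fin n → ℕ) : Prop :=
  (Module.finrank ℂ ↥(forms P d w) : ℤ) =
    max 0 (((d + 2).choose 2 : ℤ) - ∑ i, ((w i + 1).choose 2 : ℤ))

/-- For points `P` of a nonempty open set (the complement of a hypersurface `F = 0` of the space of
all `P`), `h⁰ = max (0, χ)` in degree `d`. -/
def NonSpecial {n : ℕ} (d : ℕ) (w : Fin n → ℕ) : Prop :=
  ∃ F : MvPolynomial (Fin n × Fin 2) ℂ, F ≠ 0 ∧
    ∀ P : Fin n → Fin 2 → ℂ, eval (fun ij : Fin n × Fin 2 => P ij.1 ij.2) F ≠ 0 → Expected P d w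

/-- For points `P` of a nonempty open set (the complement of a hypersurface `F = 0` of the space of
all `P`), `h⁰ = max (0, χ)` for every degree `d`. -/
def EveryDegree {n : ℕ} (w : Fin n → ℕ) : Prop :=
  ∃ F : MvPolynomial (Fin n × Fin 2) ℂ, F ≠ 0 ∧
    ∀ P : Fin n → Fin 2 → ℂ, eval (fun ij : Fin n × Fin 2 => P ij.1 ij.2) F ≠ 0 →
      ∀ d : ℕ, Expected P d w

/-- The number of conditions. -/
def conditions {n : ℕ} (w : Fin n → ℕ) : ℕ := ∑ i, (w i + 1).choose 2

/-- The system which consists of the points of the group `j` (the others get the multiplicity `0`). -/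
def group {n r : ℕ} (w : Fin n → ℕ) (g : Fin n → Fin r) (j : Fin r) : Fin n → ℕ :=
  fun i => if g i = j then w i else 0

/-- The lower end of the window is `- lo r`. -/
noncomputable def lo (r : ℕ) : ℝ := min (√(r : ℝ) - 3) (2 / 3 + 9 / (4 * √(r : ℝ)))

/-- The upper end of the window. -/
noncomputable def hi (r : ℕ) : ℝ := min (√(r : ℝ) - 3) (2 / 3 + 1 / (4 * √(r : ℝ)))

/-- `κ = 2 d + 3 - √r - 2 N / √r` is in `[-lo r, hi r]`. -/
def Window (r N d : ℕ) : Prop :=
  -lo r ≤ 2 * (d : ℝ) + 3 - (√(r : ℝ) + 2 * (N : ℝ) / √(r : ℝ)) ∧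
    2 * (d : ℝ) + 3 - (√(r : ℝ) + 2 * (N : ℝ) / √(r : ℝ)) ≤ hi r

/-- The points with the multiplicities `w i` form the groups `{i | g i = j}`, `j < r`; the number of
conditions of the group `j` is between those of points of multiplicities `μ j` and `ν j`, where
`m ≤ μ j ≤ ν j ≤ m + 1`; and the group `j` alone has the expected dimension in the degrees `μ j - 1` and
`ν j - 1`. (If `μ j = ν j`, then it has exactly the number of conditions of a point of multiplicity `μ j`,
and the last condition says that it is on no curve of degree `μ j - 1`.) -/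
structure Grouped {n r : ℕ} (w : Fin n → ℕ) (g : Fin n → Fin r) (m : ℕ) (μ ν : Fin r → ℕ) : Prop where
  pos : 1 ≤ m
  near : ∀ j, m ≤ μ j ∧ μ j ≤ ν j ∧ ν j ≤ m + 1
  cond : ∀ j, (μ j + 1).choose 2 ≤ conditions (group w g j) ∧
    conditions (group w g j) ≤ (ν j + 1).choose 2
  ns : ∀ j, NonSpecial (μ j - 1) (group w g j) ∧ NonSpecial (ν j - 1) (group w g j)

open Pool.Agent.W71.NN Pool.Agent.TH641.UM Pool.Agent.TH545.SD Pool.Agent.W5h90.TG

theorem ns_of {n d : ℕ} {w : Fin n → ℕ} (h : NonSpecial d w) : Ns d (ms w) := by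
  obtain ⟨F, hF, hF'⟩ := h
  refine ⟨GD_of_open (K := ℂ) ⟨F, hF, fun P hP => ?_⟩⟩
  have h2 := hF' P hP
  unfold Expected forms at h2
  unfold Pool.Agent.H932R3.ExpDim
  have e : ∑ i, ((w i + 1).choose 2 : ℤ) = ((∑ i, (w i + 1).choose 2 : ℕ) : ℤ) := by
    push_cast
    rfl
  rw [e] at h2
  omega

theorem expected_of {n d : ℕ} {w : Fin n → ℕ} {P : Fin n → Fin 2 → ℂ}
    (h : Pool.Agent.H932R3.ExpDim ℂ w P d) : Expected P d w := by
  unfold Pool.Agent.H932R3.ExpDim at h
  unfold Expected forms
  rw [h]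
  have e : ∑ i, ((w i + 1).choose 2 : ℤ) = ((∑ i, (w i + 1).choose 2 : ℕ) : ℤ) := by
    push_cast
    rfl
  rw [e]
  omega

theorem nonSpecial_of {n d : ℕ} {w : Fin n → ℕ} (h : Ns d (ms w)) : NonSpecial d w := by
  obtain ⟨F, hF, hF'⟩ := GD.expDim h.out
  refine ⟨F.map (algebraMap ℚ ℂ), Pool.Agent.H932R3.map_ne_zero_of hF, fun P hP => ?_⟩
  rw [MvPolynomial.eval_map] at hP
  exact expected_of (hF' (L := ℂ) P hP)

theorem every_of {n : ℕ} {w : Fin n → ℕ} (h : Good (ms w)) : EveryDegree w := by
  obtain ⟨F, hF, hF'⟩ := Gd.expDim h.out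
  refine ⟨F.map (algebraMap ℚ ℂ), Pool.Agent.H932R3.map_ne_zero_of hF, fun P hP d => ?_⟩
  rw [MvPolynomial.eval_map] at hP
  exact expected_of (hF' (L := ℂ) P hP d)

theorem ms_append {n k : ℕ} (w : Fin n → ℕ) (u : Fin k → ℕ) : ms (Fin.append w u) = ms w + ms u := by
  unfold ms
  rw [Fin.sum_univ_add]
  simp

/-- the multiset of a group -/
noncomputable def grp {n r : ℕ} (w : Fin n → ℕ) (g : Fin n → Fin r) (j : Fin r) : Multiset ℕ :=
  ∑ i ∈ Finset.univ.filter (fun i => g i = j), {w i}

theorem main {n r m p d : ℕ} {w : Fin n → ℕ} {g : Fin n → Fin r} {μ ν : Fin r → ℕ} (hr : 10 ≤ r)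
    (h : Grouped w g m μ ν) (hd : ∀ N, ∑ j, μ j ≤ N → N ≤ ∑ j, ν j → ¬ Window r N d) :
    Ns d (ms (Fin.append w fun _ : Fin p => 1)) := by
  rw [ms_append, ms_fin]
  have e : ms w = ∑ j, grp w g j := (sum_groups w g).symm
  rw [e]
  exact ns_groups hr h.pos h.near (grp w g) (fun j => (Ns_group w g j).1 (ns_of (h.ns j).1))
    (fun j => (Ns_group w g j).1 (ns_of (h.ns j).2))
    (fun j => (h.cond j).1.trans_eq (co_group w g j).symm)
    (fun j => (co_group w g j).trans_le (h.cond j).2) p hd

theorem every {n r m : ℕ} (p : ℕ) {w : Fin n → ℕ} {g : Fin n → Fin r} {μ ν : Fin r → ℕ} (hr : 10 ≤ r)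
    (h : Grouped w g m μ ν) (hd : ∀ d N, ∑ j, μ j ≤ N → N ≤ ∑ j, ν j → ¬ Window r N d) :
    EveryDegree (Fin.append w fun _ : Fin p => 1) :=
  every_of (good_of_all fun d => main hr h (hd d))

theorem single_cond {r : ℕ} (μ : Fin r → ℕ) (j : Fin r) :
    conditions (group μ id j) = (μ j + 1).choose 2 := by
  unfold conditions group
  rw [Finset.sum_eq_single j]
  · simp
  · intro i _ hij
    simp [hij]
  · intro hj
    exact absurd (Finset.mem_univ j) hj

theorem single_ns {r : ℕ} (μ : Fin r → ℕ) (j : Fin r) (d : ℕ) : NonSpecial d (group μ id j) := by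
  apply nonSpecial_of
  exact (Ns_group μ id j (d := d)).2 (by
    have e : ∑ i ∈ Finset.univ.filter (fun i => id i = j), ({μ i} : Multiset ℕ) = {μ j} := by
      have e1 : Finset.univ.filter (fun i : Fin r => id i = j) = {j} := by
        ext i
        simp
      rw [e1, Finset.sum_singleton]
    rw [e]
    exact (good_pt _).ns _)

theorem single {r m : ℕ} {μ : Fin r → ℕ} (hm : 1 ≤ m) (hμ : ∀ j, μ j = m ∨ μ j = m + 1) :
    Grouped μ id m μ μ where
  pos := hm
  near := fun j => by rcases hμ j with h | h <;> omega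
  cond := fun j => by
    have e : conditions (group μ id j) = (μ j + 1).choose 2 := single_cond μ j
    exact ⟨e.ge, e.le⟩
  ns := fun j => ⟨single_ns μ j _, single_ns μ j _⟩

/-- **Ten or more groups of points.** -/
theorem result :
    (∀ (r n m p : ℕ) (w : Fin n → ℕ) (g : Fin n → Fin r) (μ ν : Fin r → ℕ), 10 ≤ r →
      Grouped w g m μ ν →
      (∀ d, (∀ N, ∑ j, μ j ≤ N → N ≤ ∑ j, ν j → ¬ Window r N d) →
        NonSpecial d (Fin.append w fun _ : Fin p => 1)) ∧
      (∃ d0 : ℕ, ∀ d : ℕ,
        d < d0 ∨ (d0 : ℝ) + (((∑ j, ν j : ℕ) : ℝ) - ((∑ j, μ j : ℕ) : ℝ)) / √(r : ℝ) + 1 ≤ d →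
          NonSpecial d (Fin.append w fun _ : Fin p => 1)) ∧
      ((∀ d N, ∑ j, μ j ≤ N → N ≤ ∑ j, ν j → ¬ Window r N d) →
        EveryDegree (Fin.append w fun _ : Fin p => 1)) ∧
      (∀ s, 5 ≤ s → s % 2 = 1 → r = s ^ 2 → μ = ν → (∑ j, μ j) % s = (s + 1) / 2 →
        EveryDegree (Fin.append w fun _ : Fin p => 1))) ∧
    (∀ r : ℕ, 10 ≤ r → ¬ IsSquare r → (lo r + hi r) / 2 < 97 / 100 ∧
      ∀ ε : ℝ, 0 < ε → ∃ M0 : ℕ, ∀ M : ℕ, M0 ≤ M →
        (Set.ncard {N : ℕ | N < M ∧ ∃ (n m p : ℕ) (w : Fin n → ℕ) (g : Fin n → Fin r) (μ : Fin r → ℕ),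
          Grouped w g m μ μ ∧ ∑ j, μ j = N ∧ ¬ EveryDegree (Fin.append w fun _ : Fin p => 1)} : ℝ) ≤
            ((lo r + hi r) / 2 + ε) * M) ∧
    ((lo 10 + hi 10) / 2 < 163 / 1000 ∧ (lo 11 + hi 11) / 2 < 317 / 1000 ∧
      (lo 12 + hi 12) / 2 < 465 / 1000) ∧
    ∀ (r m : ℕ) (μ : Fin r → ℕ), 1 ≤ m → (∀ j, μ j = m ∨ μ j = m + 1) → Grouped μ id m μ μ := by
  refine ⟨fun r n m p w g μ ν hr h => ⟨fun d hd => nonSpecial_of (main hr h hd), ?_, every p hr h, ?_⟩,
    fun r hr hsq => ⟨len_lt hr hsq, fun ε hε => ?_⟩, ⟨?_, ?_, ?_⟩, fun r m μ => single⟩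
  · obtain ⟨d0, hd0⟩ := win_interval hr (∑ j, μ j) (∑ j, ν j)
    exact ⟨d0, fun d hd => nonSpecial_of (main hr h (hd0 d hd))⟩
  · rintro s hs hodd rfl rfl hN
    refine every p hr h fun d N h1 h2 => ?_
    have e : N = ∑ j, μ j := le_antisymm h2 h1
    subst e
    exact win_square hs hodd hN
  · obtain ⟨M0, hM0⟩ := count_win hr hsq hε
    refine ⟨M0, fun M hM => le_trans ?_ (hM0 M hM)⟩
    have hfin : {N : ℕ | N < M ∧ ∃ d, Win r N d}.Finite :=
      (Set.finite_lt_nat M).subset fun N hN => hN.1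
    exact_mod_cast Set.ncard_le_ncard (fun N hN => by
      obtain ⟨h1, n, m, p, w, g, μ, h2, h3, h4⟩ := hN
      refine ⟨h1, ?_⟩
      by_contra hcon
      push Not at hcon
      refine h4 (every p hr h2 fun d N' k1 k2 => ?_)
      have e : N' = ∑ j, μ j := le_antisymm k2 k1
      rw [e, h3]
      exact hcon d) hfin
  · exact len_small 10 (163 / 1000) (by norm_num) (by norm_num)
  · exact len_small 11 (317 / 1000) (by norm_num) (by norm_num)
  · exact len_small 12 (465 / 1000) (by norm_num) (by norm_num)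

end Pool.Agent.Results.MP_70e04f_ag.TenGroups
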